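import Pool.Agent.R138.Pigeon4

/-!
# MP_4792b2_co: matroids that are transversal and cotransversal are strongly pigeonhole

If a finite matroid `M` and its dual are both transversal and `U` is a set of elements with
connectivity value at most `l`, then the relation `X ~ X'` (same independent extensions by subsets
of `E - U`) has at most `1 + (l + 1) ^ (4 ^ l)` classes on the subsets of `U`.
-/

namespace Pool.Agent.Results.MP_4792b2_co.Bitransversal

open Set Pool.Agent.R138.Pigeon

universe u

/-- `M` is transversal: for some finite family `A` of subsets of the ground set, the independent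
sets are exactly the partial transversals (sets `I` with an injective choice of indices `f` such
that `e ∈ A (f e)` for `e ∈ I`). -/
def IsTransversal {α : Type u} (M : Matroid α) : Prop :=
  ∃ (k : ℕ) (A : Fin k → Set α), (∀ i, A i ⊆ M.E) ∧
    ∀ I : Set α, M.Indep I ↔ ∃ f : I → Fin k, Function.Injective f ∧ ∀ e : I, (e : α) ∈ A (f e)

/-- `X ∼_U X'`: the sets `X` and `X'` have the same independent extensions inside `E - U`. -/
def SameExt {α : Type u} (M : Matroid α) (U X X' : Set α) : Prop :=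
  ∀ Z ⊆ M.E \ U, (M.Indep (X ∪ Z) ↔ M.Indep (X' ∪ Z))

/-- the set of equivalence classes of `∼_U` on the subsets of `U` -/
def extClasses {α : Type u} (M : Matroid α) (U : Set α) : Set (Set (Set α)) :=
  {C | ∃ X ⊆ U, C = {X' | X' ⊆ U ∧ SameExt M U X X'}}

/-- the class `𝓜` of matroids is strongly pigeonhole with the bound `π`: whenever `M` is a finite
matroid in `𝓜` and `U ⊆ E(M)` satisfies `r(U) + r(E - U) ≤ r(M) + l`, the relation `∼_U` has at
most `π l` classes -/
def StronglyPigeonhole (π : ℕ → ℕ) (𝓜 : ∀ α : Type u, Matroid α → Prop) : Prop :=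
  ∀ (l : ℕ) (α : Type u) (M : Matroid α), M.Finite → 𝓜 α M → ∀ U ⊆ M.E,
    M.eRk U + M.eRk (M.E \ U) ≤ M.eRank + l →
      (extClasses M U).Finite ∧ (extClasses M U).ncard ≤ π l

section link

variable {α : Type u}

/-- the rank as a natural number -/
noncomputable def rk (M : Matroid α) (S : Finset α) : ℕ := (M.eRk (S : Set α)).toNat

theorem coe_rk (M : Matroid α) (S : Finset α) : ((rk M S : ℕ) : ℕ∞) = M.eRk (S : Set α) := by
  unfold rk
  apply ENat.coe_toNat
  have h := M.eRk_le_encard (S : Set α)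
  rw [Set.encard_coe_eq_coe_finsetCard] at h
  intro h1
  rw [h1] at h
  exact absurd h (by simp)

theorem rf_rk [DecidableEq α] (M : Matroid α) : RF (rk M) where
  le_card S := by
    have h := M.eRk_le_encard (S : Set α)
    rw [Set.encard_coe_eq_coe_finsetCard, ← coe_rk] at h
    exact_mod_cast h
  mono S T hST := by
    have h := M.eRk_mono (Finset.coe_subset.2 hST)
    rw [← coe_rk, ← coe_rk] at h
    exact_mod_cast h
  sub S T := by
    have h := M.eRk_inter_add_eRk_union_le (S : Set α) (T : Set α)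
    rw [← Finset.coe_inter, ← Finset.coe_union, ← coe_rk, ← coe_rk, ← coe_rk, ← coe_rk] at h
    have h' : rk M (S ∩ T) + rk M (S ∪ T) ≤ rk M S + rk M T := by exact_mod_cast h
    omega

theorem indep_iff (M : Matroid α) (I : Finset α) : M.Indep (I : Set α) ↔ rk M I = I.card := by
  rw [Matroid.indep_iff_eRk_eq_encard_of_finite (Finset.finite_toSet I), ← coe_rk,
    Set.encard_coe_eq_coe_finsetCard]
  exact_mod_cast Iff.rfl

theorem basis_rk (M : Matroid α) (S : Finset α) :
    ∃ I ⊆ S, rk M I = I.card ∧ rk M S = I.card := by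
  classical
  obtain ⟨I, hI⟩ := M.exists_isBasis' (S : Set α)
  have hfin : I.Finite := (Finset.finite_toSet S).subset hI.subset
  refine ⟨hfin.toFinset, ?_, ?_, ?_⟩
  · rw [Set.Finite.toFinset_subset]
    exact hI.subset
  · rw [← indep_iff, Set.Finite.coe_toFinset]
    exact hI.indep
  · have h := hI.encard_eq_eRk
    rw [← coe_rk, hfin.encard_eq_coe_toFinset_card] at h
    exact_mod_cast h.symm

theorem td_transversal [DecidableEq α] {M : Matroid α} (h : IsTransversal M) :
    ∃ (k : ℕ) (N : α → Finset (Fin k)), TD (rk M) N := by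
  classical
  obtain ⟨k, A, _, hA⟩ := h
  refine ⟨k, fun e => Finset.univ.filter (fun i => e ∈ A i), ?_⟩
  apply td_of (rf_rk M) (basis_rk M)
  intro I
  rw [← indep_iff, hA]
  constructor
  · rintro ⟨f, hf, h⟩
    exact ⟨fun e => f ⟨e.1, e.2⟩, fun a b hab => by
      have := hf hab
      exact Subtype.ext (by simpa using congrArg (fun x => x.1) this),
      fun e => Finset.mem_filter.2 ⟨Finset.mem_univ _, h ⟨e.1, e.2⟩⟩⟩
  · rintro ⟨f, hf, h⟩
    exact ⟨fun e => f ⟨e.1, e.2⟩, fun a b hab => by
      have := hf hab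
      exact Subtype.ext (by simpa using congrArg (fun x => x.1) this),
      fun e => (Finset.mem_filter.1 (h ⟨e.1, e.2⟩)).2⟩

end link

/-- The class of all matroids that are both transversal and cotransversal is strongly pigeonhole,
with the explicit bound `1 + (l + 1) ^ (4 ^ l)`. -/
theorem result : StronglyPigeonhole.{u} (fun l => 1 + (l + 1) ^ (4 ^ l))
    (fun _ M => IsTransversal M ∧ IsTransversal M✶) := by
  classical
  intro l α M hfin hM U hU hl
  obtain ⟨hT, hTs⟩ := hM
  obtain ⟨k, N, hN⟩ := td_transversal hT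
  obtain ⟨ks, Ns, hNs⟩ := td_transversal hTs
  have hEfin : M.E.Finite := M.ground_finite
  set E : Finset α := hEfin.toFinset with hE
  have hEc : (E : Set α) = M.E := hEfin.coe_toFinset
  have hUfin : U.Finite := hEfin.subset hU
  set U' : Finset α := hUfin.toFinset with hU'
  have hUc : (U' : Set α) = U := hUfin.coe_toFinset
  have hUE : U' ⊆ E := by rw [← Finset.coe_subset, hUc, hEc]; exact hU
  set V : Finset α := E \ U' with hV
  have hVc : (V : Set α) = M.E \ U := by rw [hV, Finset.coe_sdiff, hEc, hUc]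
  have hr := rf_rk M
  have hrs := rf_rk M✶
  have hUV : Disjoint U' V := Finset.disjoint_sdiff
  have hUVE : U' ∪ V = E := Finset.union_sdiff_of_subset hUE
  have hd : ∀ S ⊆ E, rk M✶ S + rk M E = S.card + rk M (E \ S) := by
    intro S hS
    have hSE : (S : Set α) ⊆ M.E := by rw [← hEc]; exact Finset.coe_subset.2 hS
    have h := M.eRk_dual_add_eRank (S : Set α) hSE
    rw [← M.eRk_ground, ← hEc, ← Finset.coe_sdiff, ← coe_rk, ← coe_rk, ← coe_rk,
      Set.encard_coe_eq_coe_finsetCard] at h
    have h' : rk M✶ S + rk M E = rk M (E \ S) + S.card := by exact_mod_cast h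
    omega
  have hl' : rk M U' + rk M V ≤ rk M E + l := by
    rw [← M.eRk_ground, ← hUc, ← hEc] at hl
    rw [← Finset.coe_sdiff, ← coe_rk, ← coe_rk, ← coe_rk] at hl
    exact_mod_cast hl
  set 𝒯 := types (rk M) N E U' V with h𝒯
  have h𝒯c : 𝒯.card ≤ 4 ^ l := types_card hr hN hrs hNs hd hUV hUVE hl'
  -- the invariant
  have hinv : ∃ φ : Set α → Option ({τ // τ ∈ 𝒯} → Fin (l + 1)),
      ∀ X ⊆ U, ∀ X' ⊆ U, φ X = φ X' → SameExt M U X X' := by
    refine ⟨fun X => if h : ∃ X0 : Finset α, (X0 : Set α) = X ∧ X0 ⊆ U' ∧ rk M X0 = X0.card then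
      some (fun τ => ⟨sig (rk M) N U' V h.choose τ.1, Nat.lt_succ_of_le
        (sig_le hr hN hUV hUVE hl' h.choose_spec.2.1 h.choose_spec.2.2 τ.2)⟩) else none, ?_⟩
    have hcase : ∀ X ⊆ U, M.Indep X →
        ∃ X0 : Finset α, (X0 : Set α) = X ∧ X0 ⊆ U' ∧ rk M X0 = X0.card := by
      intro X hX hi
      have hXfin : X.Finite := hUfin.subset hX
      refine ⟨hXfin.toFinset, hXfin.coe_toFinset, ?_, ?_⟩
      · rw [← Finset.coe_subset, hXfin.coe_toFinset, hUc]; exact hX
      · rw [← indep_iff, hXfin.coe_toFinset]; exact hi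
    have hone : ∀ X0 X0' : Finset α, X0 ⊆ U' → X0' ⊆ U' →
        (∀ τ ∈ 𝒯, sig (rk M) N U' V X0 τ = sig (rk M) N U' V X0' τ) →
        ∀ Z ⊆ M.E \ U, M.Indep ((X0 : Set α) ∪ Z) → M.Indep ((X0' : Set α) ∪ Z) := by
      intro X0 X0' h1 h2 h3 Z hZ hi
      have hZfin : Z.Finite := hEfin.subset (hZ.trans Set.diff_subset)
      have hZV : hZfin.toFinset ⊆ V := by
        rw [← Finset.coe_subset, hZfin.coe_toFinset, hVc]; exact hZ
      rw [← hZfin.coe_toFinset, ← Finset.coe_union, indep_iff] at hi ⊢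
      exact equiv_of_sig hr hN hUV hUVE h1 h2 h3 hZV hi
    intro X hX X' hX' hφ Z hZ
    beta_reduce at hφ
    by_cases h : ∃ X0 : Finset α, (X0 : Set α) = X ∧ X0 ⊆ U' ∧ rk M X0 = X0.card
    · by_cases h' : ∃ X0 : Finset α, (X0 : Set α) = X' ∧ X0 ⊆ U' ∧ rk M X0 = X0.card
      · rw [dif_pos h, dif_pos h'] at hφ
        have hφ := Option.some.inj hφ
        have h3 : ∀ τ ∈ 𝒯, sig (rk M) N U' V h.choose τ = sig (rk M) N U' V h'.choose τ := by
          intro τ hτ
          have := congrFun hφ ⟨τ, hτ⟩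
          simpa using congrArg Fin.val this
        constructor
        · intro hi
          rw [← h.choose_spec.1] at hi
          rw [← h'.choose_spec.1]
          exact hone _ _ h.choose_spec.2.1 h'.choose_spec.2.1 h3 Z hZ hi
        · intro hi
          rw [← h'.choose_spec.1] at hi
          rw [← h.choose_spec.1]
          exact hone _ _ h'.choose_spec.2.1 h.choose_spec.2.1 (fun τ hτ => (h3 τ hτ).symm) Z hZ hi
      · rw [dif_pos h, dif_neg h'] at hφ
        exact absurd hφ (by simp)
    · by_cases h' : ∃ X0 : Finset α, (X0 : Set α) = X' ∧ X0 ⊆ U' ∧ rk M X0 = X0.card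
      · rw [dif_neg h, dif_pos h'] at hφ
        exact absurd hφ (by simp)
      · constructor
        · intro hi
          exact absurd (hcase X hX (hi.subset Set.subset_union_left)) h
        · intro hi
          exact absurd (hcase X' hX' (hi.subset Set.subset_union_left)) h'
  obtain ⟨φ, hφ⟩ := hinv
  -- counting
  set g : Option ({τ // τ ∈ 𝒯} → Fin (l + 1)) → Set (Set α) := fun ω =>
    if h : ∃ X ⊆ U, φ X = ω then {X' | X' ⊆ U ∧ SameExt M U h.choose X'} else ∅ with hg
  have hsub : extClasses M U ⊆ g '' Set.univ := by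
    rintro C ⟨X, hX, rfl⟩
    refine ⟨φ X, Set.mem_univ _, ?_⟩
    have h : ∃ X' ⊆ U, φ X' = φ X := ⟨X, hX, rfl⟩
    rw [hg]
    beta_reduce
    rw [dif_pos h]
    have h1 : SameExt M U h.choose X := hφ _ h.choose_spec.1 _ hX h.choose_spec.2
    ext X'
    constructor
    · rintro ⟨h2, h3⟩
      exact ⟨h2, fun Z hZ => (h1 Z hZ).symm.trans (h3 Z hZ)⟩
    · rintro ⟨h2, h3⟩
      exact ⟨h2, fun Z hZ => (h1 Z hZ).trans (h3 Z hZ)⟩
  have hfinU : (g '' Set.univ).Finite := Set.toFinite _
  refine ⟨hfinU.subset hsub, ?_⟩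
  calc (extClasses M U).ncard ≤ (g '' Set.univ).ncard := Set.ncard_le_ncard hsub hfinU
    _ ≤ (Set.univ : Set (Option ({τ // τ ∈ 𝒯} → Fin (l + 1)))).ncard :=
        Set.ncard_image_le (Set.toFinite _)
    _ = Fintype.card (Option ({τ // τ ∈ 𝒯} → Fin (l + 1))) := by
        rw [Set.ncard_univ, Nat.card_eq_fintype_card]
    _ = (l + 1) ^ 𝒯.card + 1 := by
        rw [Fintype.card_option, Fintype.card_fun, Fintype.card_fin, Fintype.card_coe]
    _ ≤ 1 + (l + 1) ^ (4 ^ l) := by
        rw [add_comm]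
        exact Nat.add_le_add_left (Nat.pow_le_pow_right (by omega) h𝒯c) 1

end Pool.Agent.Results.MP_4792b2_co.Bitransversal
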