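import Mathlib

set_option maxHeartbeats 400000
set_option linter.unusedSectionVars false
set_option linter.unusedVariables false

/-!
# Transversal and cotransversal matroids are strongly pigeonhole

A matroid on a finite ground set which is both transversal and cotransversal has, for every set
`U` with connectivity value at most `l`, a number of `∼_U`-classes bounded in terms of `l`.

Outline.  Write `N(Y)` for the members of the presentation meeting `Y`.
* For a union `W` of circuits, `|N(W)| = r(W)` (`cyclic_card`).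
* The coloops `K` of `M|U` have rank at most `l` in the dual; since the dual is transversal, apart
  from at most `l` elements, they fall into at most `2 ^ l` types of clones (`types_card`).
* The saturated presentation `sat` (the intersection of the `N(C)` over the circuits `C`
  containing the element) takes equal values on clones.
* A Hall violator inside `X ∪ Z` only sees `X` through boundedly many numbers, each of which only
  matters in a window of length `l` (`step`).
-/

namespace Pool.Agent.Results.MP_4792b2_co.Pigeonhole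

open Finset

universe u

/-! ## The notions of the problem -/

/-- `X` is a partial transversal of the family `A`: distinct members of the family can be chosen
for the elements of `X`, each containing its element. -/
def PartialTransversal {α : Type u} {k : ℕ} (A : Fin k → Set α) (X : Set α) : Prop :=
  ∃ f : X → Fin k, Function.Injective f ∧ ∀ x : X, (x : α) ∈ A (f x)

/-- `M` is transversal: its independent sets are the partial transversals of some finite family
of subsets of its ground set. -/
def IsTransversal {α : Type u} (M : Matroid α) : Prop :=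
  ∃ (k : ℕ) (A : Fin k → Set α), (∀ i, A i ⊆ M.E) ∧
    ∀ X : Set α, M.Indep X ↔ PartialTransversal A X

/-- `M` is cotransversal: its dual is transversal. -/
def IsCotransversal {α : Type u} (M : Matroid α) : Prop := IsTransversal M.dual

/-- The relation `X ∼_U X'`. -/
def Equivalent {α : Type u} (M : Matroid α) (U X X' : Set α) : Prop :=
  ∀ Z ⊆ M.E \ U, (M.Indep (X ∪ Z) ↔ M.Indep (X' ∪ Z))

/-- The set of equivalence classes of `∼_U` on the subsets of `U`. -/
def classes {α : Type u} (M : Matroid α) (U : Set α) : Set (Set (Set α)) :=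
  {c | ∃ X ⊆ U, c = {X' | X' ⊆ U ∧ Equivalent M U X X'}}

/-- A class of (finite) matroids is strongly pigeonhole: for every positive `l` there is a
positive `p` such that for every member `M` of the class and every `U ⊆ E(M)` with
`r(U) + r(E - U) - r(M) ≤ l`, the relation `∼_U` has at most `p` equivalence classes. -/
def StronglyPigeonhole (𝓜 : ∀ α : Type u, Matroid α → Prop) : Prop :=
  ∀ l : ℕ, 0 < l → ∃ p : ℕ, 0 < p ∧
    ∀ (α : Type u) (M : Matroid α), M.E.Finite → 𝓜 α M → ∀ U ⊆ M.E,
      M.eRk U + M.eRk (M.E \ U) ≤ M.eRank + l → (classes M U).encard ≤ p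

/-! ## The proof -/

section core

variable {α : Type*} [Fintype α] [DecidableEq α]
variable {I : Type*} [Fintype I] [DecidableEq I]

/-- Hall condition for the set `X` in the set system `N`. -/
def Hall (N : α → Finset I) (X : Finset α) : Prop :=
  ∀ Y ⊆ X, #Y ≤ #(Y.biUnion N)

lemma hall_iff (N : α → Finset I) (X : Finset α) :
    Hall N X ↔ ∃ f : X → I, Function.Injective f ∧ ∀ x : X, f x ∈ N (x : α) := by
  rw [← Finset.all_card_le_biUnion_card_iff_exists_injective (fun x : X => N (x : α))]
  constructor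
  · intro h s
    have h1 := h (s.map (Function.Embedding.subtype _)) (by
      intro y hy
      simp only [mem_map, Function.Embedding.subtype_apply] at hy
      obtain ⟨a, _, rfl⟩ := hy
      exact a.2)
    rw [card_map] at h1
    refine h1.trans (card_le_card ?_)
    intro i hi
    simp only [mem_biUnion, mem_map, Function.Embedding.subtype_apply] at hi ⊢
    obtain ⟨a, ⟨b, hb, rfl⟩, hi⟩ := hi
    exact ⟨b, hb, hi⟩
  · intro h Y hY
    have h1 := h (Y.subtype (· ∈ X))
    rw [card_subtype, filter_true_of_mem (fun x hx => hY hx)] at h1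
    refine h1.trans (card_le_card ?_)
    intro i hi
    simp only [mem_biUnion, mem_subtype] at hi ⊢
    obtain ⟨a, ha, hi⟩ := hi
    exact ⟨a, ha, hi⟩

lemma Hall.mono {N : α → Finset I} {X Y : Finset α} (h : Hall N X) (hYX : Y ⊆ X) : Hall N Y :=
  fun Z hZ => h Z (hZ.trans hYX)

/-- the rank function on finsets -/
noncomputable def rk (M : Matroid α) (X : Finset α) : ℕ := (M.eRk (X : Set α)).toNat

lemma coe_rk (M : Matroid α) (X : Finset α) : ((rk M X : ℕ) : ℕ∞) = M.eRk (X : Set α) := by
  apply ENat.natCast_toNat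
  have h : M.eRk (X : Set α) ≤ (X : Set α).encard := M.eRk_le_encard _
  rw [Set.encard_coe_eq_coe_finsetCard] at h
  exact ne_top_of_le_ne_top (ENat.natCast_ne_top _) h

lemma rk_submod (M : Matroid α) (X Y : Finset α) :
    rk M (X ∩ Y) + rk M (X ∪ Y) ≤ rk M X + rk M Y := by
  have h := M.eRk_inter_add_eRk_union_le (X : Set α) (Y : Set α)
  rw [← coe_inter, ← coe_union, ← coe_rk, ← coe_rk, ← coe_rk, ← coe_rk] at h
  exact_mod_cast h

lemma card_le_rk {M : Matroid α} {J X : Finset α} (hJ : M.Indep (J : Set α)) (h : J ⊆ X) :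
    #J ≤ rk M X := by
  have h1 := hJ.encard_le_eRk_of_subset (X := (X : Set α)) (by exact_mod_cast h)
  rw [Set.encard_coe_eq_coe_finsetCard, ← coe_rk] at h1
  exact_mod_cast h1

lemma lift_set (C : Set α) : ∃ C' : Finset α, (C' : Set α) = C :=
  ⟨C.toFinite.toFinset, by simp⟩

lemma exists_basis (M : Matroid α) (hE : M.E = Set.univ) (X : Finset α) :
    ∃ B ⊆ X, M.IsBasis (B : Set α) (X : Set α) ∧ #B = rk M X := by
  obtain ⟨B, hB⟩ := M.exists_isBasis (X : Set α) (by rw [hE]; exact Set.subset_univ _)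
  obtain ⟨B', rfl⟩ := lift_set B
  refine ⟨B', by exact_mod_cast hB.subset, hB, ?_⟩
  have h := hB.encard_eq_eRk
  rw [Set.encard_coe_eq_coe_finsetCard, ← coe_rk] at h
  exact_mod_cast h

lemma exists_circuit {M : Matroid α} (hE : M.E = Set.univ) {X : Finset α}
    (hX : ¬ M.Indep (X : Set α)) : ∃ C : Finset α, C ⊆ X ∧ M.IsCircuit (C : Set α) := by
  have hd : M.Dep (X : Set α) := ⟨hX, by rw [hE]; exact Set.subset_univ _⟩
  obtain ⟨C, hC, hC2⟩ := hd.exists_isCircuit_subset
  obtain ⟨C', rfl⟩ := lift_set C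
  exact ⟨C', by exact_mod_cast hC, hC2⟩

/-- `N` presents `M`. -/
def Pres (M : Matroid α) (N : α → Finset I) : Prop :=
  ∀ X : Finset α, M.Indep (X : Set α) ↔ Hall N X

lemma circ_card {M : Matroid α} {N : α → Finset I} (hN : Pres M N) {C : Finset α}
    (hC : M.IsCircuit (C : Set α)) : #(C.biUnion N) < #C := by
  have h1 : ¬ Hall N C := fun h => hC.not_indep ((hN C).2 h)
  unfold Hall at h1
  push Not at h1
  obtain ⟨Y, hY, hlt⟩ := h1
  by_cases hYC : Y = C
  · rw [← hYC]; exact hlt
  · exfalso
    have h2 : (Y : Set α) ⊂ (C : Set α) := by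
      rw [Set.ssubset_iff_subset_ne]
      exact ⟨by exact_mod_cast hY, by exact_mod_cast hYC⟩
    have h3 := (hN Y).1 (hC.ssubset_indep h2) Y (Finset.Subset.refl _)
    omega

lemma circ_erase {M : Matroid α} {N : α → Finset I} (hN : Pres M N) {C : Finset α}
    (hC : M.IsCircuit (C : Set α)) {e : α} (he : e ∈ C) :
    (C.erase e).biUnion N = C.biUnion N := by
  apply eq_of_subset_of_card_le (biUnion_subset_biUnion_of_subset_left _ (erase_subset _ _))
  have h1 := circ_card hN hC
  have h2 : M.Indep ((C.erase e : Finset α) : Set α) := by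
    rw [coe_erase]
    exact hC.sdiff_singleton_indep (by exact_mod_cast he)
  have h3 := (hN _).1 h2 _ (Finset.Subset.refl _)
  rw [card_erase_of_mem he] at h3
  omega

lemma cyclic_card {M : Matroid α} (hE : M.E = Set.univ) {N : α → Finset I} (hN : Pres M N)
    {W : Finset α}
    (hW : ∀ w ∈ W, ∃ C : Finset α, C ⊆ W ∧ w ∈ C ∧ M.IsCircuit (C : Set α)) :
    #(W.biUnion N) ≤ rk M W := by
  obtain ⟨B, hBW, hB, hcard⟩ := exists_basis M hE W
  obtain ⟨f, hf, hfN⟩ := (hall_iff N B).1 ((hN B).1 hB.indep)
  rw [← hcard]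
  have key : W.biUnion N ⊆ (univ : Finset B).image f := by
    intro i hi
    rw [mem_biUnion] at hi
    obtain ⟨w, hw, hi⟩ := hi
    -- a fundamental circuit containing w
    have hfund : ∃ w' ∈ W, w' ∉ B ∧ ∃ C : Finset α, w ∈ C ∧ w' ∈ C ∧ C ⊆ insert w' B ∧
        M.IsCircuit (C : Set α) := by
      by_cases hwB : w ∈ B
      · by_contra hcon
        push Not at hcon
        obtain ⟨C, hCW, hwC, hC⟩ := hW w hw
        have h1 : ((C : Set α) \ {w}) ⊆ M.closure ((B : Set α) \ {w}) := by
          intro x hx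
          by_cases hxB : x ∈ B
          · exact M.subset_closure _ (by rw [hE]; exact Set.subset_univ _)
              ⟨by exact_mod_cast hxB, hx.2⟩
          · have hxW : x ∈ W := hCW (by exact_mod_cast hx.1)
            have hxcl : x ∈ M.closure (B : Set α) :=
              hB.subset_closure (by exact_mod_cast hxW)
            have hcirc := hB.indep.fundCircuit_isCircuit hxcl (by exact_mod_cast hxB)
            obtain ⟨D, hD⟩ := lift_set (M.fundCircuit x (B : Set α))
            rw [← hD] at hcirc
            have hDsub : D ⊆ insert x B := by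
              have := M.fundCircuit_subset_insert x (B : Set α)
              rw [← hD] at this
              exact_mod_cast this
            have hxD : x ∈ D := by
              have := M.mem_fundCircuit x (B : Set α)
              rw [← hD] at this
              exact_mod_cast this
            have hwD : w ∉ D := fun hwD => hcon x hxW hxB D hwD hxD hDsub hcirc
            have h2 := hcirc.mem_closure_sdiff_singleton_of_mem
              (e := x) (by exact_mod_cast hxD)
            refine M.closure_subset_closure ?_ h2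
            intro y hy
            have hyD : y ∈ D := by exact_mod_cast hy.1
            have := hDsub hyD
            rw [mem_insert] at this
            rcases this with h | h
            · exact absurd h hy.2
            · refine ⟨by exact_mod_cast h, ?_⟩
              rintro rfl
              exact hwD hyD
        have h3 : w ∈ M.closure ((C : Set α) \ {w}) :=
          hC.mem_closure_sdiff_singleton_of_mem (by exact_mod_cast hwC)
        have h4 : w ∈ M.closure ((B : Set α) \ {w}) :=
          M.closure_subset_closure_of_subset_closure h1 h3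
        exact hB.indep.notMem_closure_sdiff_of_mem (by exact_mod_cast hwB) h4
      · have hxcl : w ∈ M.closure (B : Set α) :=
          hB.subset_closure (by exact_mod_cast hw)
        have hcirc := hB.indep.fundCircuit_isCircuit hxcl (by exact_mod_cast hwB)
        obtain ⟨D, hD⟩ := lift_set (M.fundCircuit w (B : Set α))
        rw [← hD] at hcirc
        have hDsub : D ⊆ insert w B := by
          have := M.fundCircuit_subset_insert w (B : Set α)
          rw [← hD] at this
          exact_mod_cast this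
        have hxD : w ∈ D := by
          have := M.mem_fundCircuit w (B : Set α)
          rw [← hD] at this
          exact_mod_cast this
        exact ⟨w, hw, hwB, D, hxD, hxD, hDsub, hcirc⟩
    obtain ⟨w', _, hw'B, C, hwC, hw'C, hCsub, hC⟩ := hfund
    have hCe : C.erase w' ⊆ B := by
      intro x hx
      rw [mem_erase] at hx
      have := hCsub hx.2
      rw [mem_insert] at this
      exact this.resolve_left hx.1
    -- image of C.erase w' under f
    let S : Finset B := B.attach.filter (fun x => (x : α) ∈ C.erase w')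
    have hS : #S = #(C.erase w') := by
      have : S.image (fun x : B => (x : α)) = C.erase w' := by
        ext x
        simp only [S, mem_image, mem_filter, mem_attach, true_and, Subtype.exists,
          exists_and_right, exists_eq_right]
        constructor
        · rintro ⟨h, h2⟩; exact h2
        · intro h; exact ⟨hCe h, h⟩
      rw [← this, card_image_of_injective _ Subtype.val_injective]
    have hSN : S.image f ⊆ C.biUnion N := by
      intro j hj
      rw [mem_image] at hj
      obtain ⟨x, hx, rfl⟩ := hj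
      rw [mem_biUnion]
      refine ⟨x, ?_, hfN x⟩
      have : (x : α) ∈ C.erase w' := (mem_filter.1 hx).2
      exact (mem_erase.1 this).2
    have hcard2 : #(C.biUnion N) ≤ #(S.image f) := by
      rw [card_image_of_injective _ hf, hS, card_erase_of_mem hw'C]
      have := circ_card hN hC
      omega
    have heq := eq_of_subset_of_card_le hSN hcard2
    have : i ∈ C.biUnion N := mem_biUnion.2 ⟨w, hwC, hi⟩
    rw [← heq] at this
    exact image_subset_image (subset_univ _) this
  refine (card_le_card key).trans ?_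
  refine card_image_le.trans ?_
  simp

/-- the saturated set system -/
noncomputable def sat (M : Matroid α) (N : α → Finset I) (e : α) : Finset I := by
  classical
  exact univ.filter (fun i => ∀ C : Finset α, e ∈ C → M.IsCircuit (C : Set α) → i ∈ C.biUnion N)

lemma mem_sat {M : Matroid α} {N : α → Finset I} {e : α} {i : I} :
    i ∈ sat M N e ↔ ∀ C : Finset α, e ∈ C → M.IsCircuit (C : Set α) → i ∈ C.biUnion N := by
  unfold sat
  simp only [mem_filter, mem_univ, true_and]

lemma pres_sat {M : Matroid α} (hE : M.E = Set.univ) {N : α → Finset I} (hN : Pres M N) :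
    Pres M (sat M N) := by
  intro X
  constructor
  · intro h
    have h1 := (hN X).1 h
    intro Y hY
    refine (h1 Y hY).trans (card_le_card ?_)
    apply biUnion_mono
    intro e he i hi
    rw [mem_sat]
    intro C heC hC
    exact mem_biUnion.2 ⟨e, heC, hi⟩
  · intro h
    by_contra hX
    obtain ⟨C, hCX, hC⟩ := exists_circuit hE hX
    have h1 := h C hCX
    have h2 : C.biUnion (sat M N) ⊆ C.biUnion N := by
      intro i hi
      obtain ⟨e, he, hi⟩ := mem_biUnion.1 hi
      exact mem_sat.1 hi C he hC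
    have h3 := circ_card hN hC
    have h4 := card_le_card h2
    omega

/-- replacing `k` by `k'` preserves independence -/
def Clone (M : Matroid α) (k k' : α) : Prop :=
  ∀ X : Finset α, k ∈ X → k' ∉ X →
    (M.Indep (X : Set α) ↔ M.Indep ((insert k' (X.erase k) : Finset α) : Set α))

lemma Clone.symm {M : Matroid α} {k k' : α} (h : Clone M k k') : Clone M k' k := by
  intro X hk' hk
  have hne : k ≠ k' := by rintro rfl; exact hk hk'
  have h1 := h (insert k (X.erase k')) (mem_insert_self _ _) (by
    rw [mem_insert, mem_erase]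
    rintro (h | h)
    · exact hne h.symm
    · exact h.1 rfl)
  have h2 : insert k' ((insert k (X.erase k')).erase k) = X := by
    rw [erase_insert (by
      intro h; exact hk (mem_erase.1 h).2)]
    exact insert_erase hk'
  rw [h2] at h1
  exact h1.symm

lemma sat_clone_subset {M : Matroid α} (hE : M.E = Set.univ) {N : α → Finset I} (hN : Pres M N)
    {k k' : α} (h : Clone M k k') : sat M N k' ⊆ sat M N k := by
  intro i hi
  rw [mem_sat] at hi ⊢
  intro C hkC hC
  by_cases hk' : k' ∈ C
  · exact hi C hk' hC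
  · have hC' : M.IsCircuit ((insert k' (C.erase k) : Finset α) : Set α) := by
      rw [Matroid.isCircuit_iff_dep_forall_sdiff_singleton_indep]
      refine ⟨⟨fun hcon => hC.not_indep ((h C hkC hk').2 hcon), by
        rw [hE]; exact Set.subset_univ _⟩, ?_⟩
      intro e he
      have he' : e ∈ insert k' (C.erase k) := by exact_mod_cast he
      rw [← coe_erase]
      rw [mem_insert] at he'
      by_cases hek : e = k'
      · subst hek
        rw [erase_insert (by intro h; exact hk' (mem_erase.1 h).2), coe_erase]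
        exact hC.sdiff_singleton_indep (by exact_mod_cast hkC)
      · have heC : e ∈ C.erase k := he'.resolve_left hek
        have hek2 : e ≠ k := (mem_erase.1 heC).1
        have h3 : (insert k' (C.erase k)).erase e = insert k' ((C.erase e).erase k) := by
          ext x
          simp only [mem_erase, mem_insert]
          constructor
          · rintro ⟨h1, h2 | ⟨h2, h3⟩⟩
            · exact Or.inl h2
            · exact Or.inr ⟨h2, h1, h3⟩
          · rintro (h2 | ⟨h2, h1, h3⟩)
            · exact ⟨by rw [h2]; exact fun h => hek h.symm, Or.inl h2⟩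
            · exact ⟨h1, Or.inr ⟨h2, h3⟩⟩
        rw [h3]
        refine (h (C.erase e) (mem_erase.2 ⟨hek2.symm, hkC⟩)
          (fun h => hk' (mem_erase.1 h).2)).1 ?_
        rw [coe_erase]
        exact hC.sdiff_singleton_indep (by exact_mod_cast (mem_erase.1 heC).2)
    have h5 := hi _ (mem_insert_self _ _) hC'
    rw [← circ_erase hN hC' (mem_insert_self _ _),
      erase_insert (by intro h; exact hk' (mem_erase.1 h).2), circ_erase hN hC hkC] at h5
    exact h5

lemma hall_swap {J : Type*} [DecidableEq J] {N : α → Finset J} {k k' : α} (h : N k = N k')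
    {X : Finset α} (hk : k ∈ X) (hk' : k' ∉ X) (hX : Hall N X) :
    Hall N (insert k' (X.erase k)) := by
  intro Y hY
  by_cases hk'Y : k' ∈ Y
  · have hkY : k ∉ Y := by
      intro hkY
      have := hY hkY
      rw [mem_insert, mem_erase] at this
      rcases this with h1 | h1
      · subst h1; exact hk' hk
      · exact h1.1 rfl
    have h1 := hX (insert k (Y.erase k')) (by
      intro x hx
      rw [mem_insert, mem_erase] at hx
      rcases hx with rfl | ⟨hx1, hx2⟩
      · exact hk
      · have := hY hx2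
        rw [mem_insert, mem_erase] at this
        exact (this.resolve_left hx1).2)
    have h2 : #(insert k (Y.erase k')) = #Y := by
      rw [card_insert_of_notMem (by intro h; exact hkY (mem_erase.1 h).2),
        card_erase_of_mem hk'Y]
      have : 0 < #Y := card_pos.2 ⟨k', hk'Y⟩
      omega
    have h3 : (insert k (Y.erase k')).biUnion N = Y.biUnion N := by
      rw [biUnion_insert, h, ← biUnion_insert, insert_erase hk'Y]
    rw [h2, h3] at h1
    exact h1
  · apply hX Y
    intro x hx
    have := hY hx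
    rw [mem_insert, mem_erase] at this
    rcases this with rfl | h1
    · exact absurd hx hk'Y
    · exact h1.2

lemma clone_of_pres {M : Matroid α} {J : Type*} [DecidableEq J] {N : α → Finset J}
    (hN : Pres M N) {k k' : α} (h : N k = N k') : Clone M k k' := by
  intro X hk hk'
  rw [hN X, hN _]
  constructor
  · exact hall_swap h hk hk'
  · intro h1
    have hne : k ≠ k' := by rintro rfl; exact hk' hk
    have h2 := hall_swap (X := insert k' (X.erase k)) h.symm (mem_insert_self _ _) (by
      rw [mem_insert, mem_erase]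
      rintro (h | h)
      · exact hne h
      · exact h.1 rfl) h1
    rwa [erase_insert (by intro h; exact hk' (mem_erase.1 h).2), insert_erase hk] at h2

lemma base_swap {M : Matroid α} {k k' : α} (h : Clone M k k') {B : Finset α}
    (hB : M.IsBase (B : Set α)) (hk : k ∈ B) (hk' : k' ∉ B) :
    M.IsBase ((insert k' (B.erase k) : Finset α) : Set α) := by
  have h1 := (h B hk hk').1 hB.indep
  obtain ⟨J, hJ, hsub⟩ := h1.exists_isBase_superset
  have hcard : J.encard ≤ ((insert k' (B.erase k) : Finset α) : Set α).encard := by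
    rw [hJ.encard_eq_eRank, ← hB.encard_eq_eRank, Set.encard_coe_eq_coe_finsetCard,
      Set.encard_coe_eq_coe_finsetCard,
      card_insert_of_notMem (by intro h; exact hk' (mem_erase.1 h).2), card_erase_of_mem hk]
    have : 0 < #B := card_pos.2 ⟨k, hk⟩
    have h3 : #B - 1 + 1 = #B := by omega
    rw [h3]
  have := (Finset.finite_toSet (insert k' (B.erase k))).eq_of_subset_of_encard_le hsub hcard
  rw [this]
  exact hJ

lemma clone_dual_aux {M : Matroid α} {k k' : α} (h : Clone (M.dual) k' k) {X : Finset α}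
    (hk : k ∈ X) (hk' : k' ∉ X) (hX : M.Indep (X : Set α)) (hE : M.E = Set.univ) :
    M.Indep ((insert k' (X.erase k) : Finset α) : Set α) := by
  rw [← Matroid.dual_dual M, Matroid.dual_indep_iff_exists'] at hX ⊢
  refine ⟨by rw [Matroid.dual_ground, hE]; exact Set.subset_univ _, ?_⟩
  obtain ⟨-, B, hB, hd⟩ := hX
  obtain ⟨B', rfl⟩ := lift_set B
  have hkB : k ∉ B' := fun hcon => Set.disjoint_left.1 hd (by exact_mod_cast hk) (by exact_mod_cast hcon)
  by_cases hk'B : k' ∈ B'
  · refine ⟨_, base_swap h hB hk'B hkB, ?_⟩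
    rw [Finset.disjoint_coe, Finset.disjoint_left]
    intro x hx hx2
    rw [mem_insert, mem_erase] at hx hx2
    rcases hx with rfl | ⟨h1, h2⟩
    · rcases hx2 with h3 | h3
      · subst h3; exact hk' hk
      · exact h3.1 rfl
    · rcases hx2 with h3 | h3
      · exact h1 h3
      · exact Set.disjoint_left.1 hd (by exact_mod_cast h2) (by exact_mod_cast h3.2)
  · refine ⟨_, hB, ?_⟩
    rw [Finset.disjoint_coe, Finset.disjoint_left]
    intro x hx hx2
    rw [mem_insert, mem_erase] at hx
    rcases hx with rfl | ⟨h1, h2⟩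
    · exact hk'B hx2
    · exact Set.disjoint_left.1 hd (by exact_mod_cast h2) (by exact_mod_cast hx2)

lemma clone_dual {M : Matroid α} {k k' : α} (h : Clone (M.dual) k k') (hE : M.E = Set.univ) :
    Clone M k k' := by
  intro X hk hk'
  constructor
  · intro hX
    exact clone_dual_aux h.symm hk hk' hX hE
  · intro hX
    have hne : k ≠ k' := by rintro rfl; exact hk' hk
    have := clone_dual_aux h (X := insert k' (X.erase k)) (mem_insert_self _ _) (by
      rw [mem_insert, mem_erase]
      rintro (h | h)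
      · exact hne h
      · exact h.1 rfl) hX hE
    rwa [erase_insert (by intro h; exact hk' (mem_erase.1 h).2), insert_erase hk] at this

/-- elements of `U` in no circuit contained in `U` -/
noncomputable def co (M : Matroid α) (U : Finset α) : Finset α := by
  classical
  exact U.filter (fun k => ∀ C : Finset α, C ⊆ U → k ∈ C → ¬ M.IsCircuit (C : Set α))

lemma mem_co {M : Matroid α} {U : Finset α} {k : α} :
    k ∈ co M U ↔ k ∈ U ∧ ∀ C : Finset α, C ⊆ U → k ∈ C → ¬ M.IsCircuit (C : Set α) := by
  unfold co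
  simp only [mem_filter]

lemma co_subset (M : Matroid α) (U : Finset α) : co M U ⊆ U := fun _ hx => (mem_co.1 hx).1

lemma co_union {M : Matroid α} (hE : M.E = Set.univ) {U T X : Finset α} (hT : T ⊆ co M U)
    (hXU : X ⊆ U) (hX : M.Indep (X : Set α)) : M.Indep ((X ∪ T : Finset α) : Set α) := by
  by_contra hcon
  obtain ⟨C, hC, hcirc⟩ := exists_circuit hE hcon
  have hCU : C ⊆ U := hC.trans (union_subset hXU (hT.trans (co_subset M U)))
  by_cases hCX : C ⊆ X
  · exact hcirc.not_indep (hX.subset (by exact_mod_cast hCX))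
  · rw [Finset.not_subset] at hCX
    obtain ⟨k, hkC, hkX⟩ := hCX
    have hkT : k ∈ T := (mem_union.1 (hC hkC)).resolve_left hkX
    exact (mem_co.1 (hT hkT)).2 C hCU hkC hcirc

lemma rk_co {M : Matroid α} (hE : M.E = Set.univ) {U T : Finset α} (hT : T ⊆ co M U) :
    rk M (U \ T) + #T ≤ rk M U := by
  obtain ⟨B, hB, hB2, hcard⟩ := exists_basis M hE (U \ T)
  have h1 := co_union hE hT (hB.trans sdiff_subset) hB2.indep
  have h2 := card_le_rk h1 (X := U)
    (union_subset (hB.trans sdiff_subset) (hT.trans (co_subset M U)))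
  rw [card_union_of_disjoint (Finset.disjoint_of_subset_left hB sdiff_disjoint), hcard] at h2
  exact h2

lemma cyc {M : Matroid α} (U : Finset α) :
    ∀ w ∈ U \ co M U, ∃ C : Finset α, C ⊆ U \ co M U ∧ w ∈ C ∧ M.IsCircuit (C : Set α) := by
  intro w hw
  rw [mem_sdiff, mem_co] at hw
  obtain ⟨hwU, hw2⟩ := hw
  push Not at hw2
  obtain ⟨C, hCU, hwC, hC⟩ := hw2 hwU
  refine ⟨C, ?_, hwC, hC⟩
  intro c hc
  rw [mem_sdiff, mem_co]
  exact ⟨hCU hc, fun h => h.2 C hCU hc hC⟩

lemma card_nb_cyc {M : Matroid α} (hE : M.E = Set.univ) {N : α → Finset I} (hN : Pres M N)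
    (U : Finset α) : #((U \ co M U).biUnion N) ≤ rk M (U \ co M U) :=
  cyclic_card hE hN (cyc U)

lemma rk_le_nb {M : Matroid α} (hE : M.E = Set.univ) {N : α → Finset I} (hN : Pres M N)
    (U : Finset α) : rk M U ≤ #(U.biUnion N) := by
  obtain ⟨B, hB, hB2, hcard⟩ := exists_basis M hE U
  rw [← hcard]
  exact ((hN B).1 hB2.indep B (Finset.Subset.refl _)).trans
    (card_le_card (biUnion_subset_biUnion_of_subset_left _ hB))

lemma rk_mono {M : Matroid α} (hE : M.E = Set.univ) {X Y : Finset α} (h : X ⊆ Y) :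
    rk M X ≤ rk M Y := by
  obtain ⟨B, hB, hB2, hcard⟩ := exists_basis M hE X
  rw [← hcard]
  exact card_le_rk hB2.indep (hB.trans h)

lemma dual_rk_co {M : Matroid α} (hE : M.E = Set.univ) {U : Finset α} {l : ℕ}
    (hl : rk M U + rk M Uᶜ ≤ rk M univ + l) : rk M.dual (co M U) ≤ l := by
  obtain ⟨T, hT, hT2, hcard⟩ := exists_basis M.dual (by rw [Matroid.dual_ground, hE]) (co M U)
  rw [← hcard]
  have h1 := hT2.indep
  rw [Matroid.dual_indep_iff_exists'] at h1
  obtain ⟨-, B, hB, hd⟩ := h1
  obtain ⟨B, rfl⟩ := lift_set B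
  have hBcard : #B = rk M univ := by
    have h2 := hB.encard_eq_eRank
    rw [Set.encard_coe_eq_coe_finsetCard, ← M.eRk_univ_eq, ← coe_univ, ← coe_rk] at h2
    exact_mod_cast h2
  have h3 : #(B ∩ U) ≤ rk M (U \ T) := by
    apply card_le_rk (hB.indep.subset (by exact_mod_cast inter_subset_left))
    intro x hx
    rw [mem_inter] at hx
    rw [mem_sdiff]
    refine ⟨hx.2, fun hxT => ?_⟩
    exact Set.disjoint_left.1 hd (by exact_mod_cast hxT) (by exact_mod_cast hx.1)
  have h4 : #(B ∩ Uᶜ) ≤ rk M Uᶜ :=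
    card_le_rk (hB.indep.subset (by exact_mod_cast inter_subset_left)) inter_subset_right
  have h5 : #B = #(B ∩ U) + #(B ∩ Uᶜ) := by
    rw [← card_union_of_disjoint]
    · congr 1
      ext x
      simp only [mem_union, mem_inter, mem_compl]
      tauto
    · rw [Finset.disjoint_left]
      intro x hx hx2
      rw [mem_inter] at hx hx2
      exact (mem_compl.1 hx2.2) hx.2
  have h6 := rk_co hE hT
  omega

lemma types_card {M : Matroid α} (hE : M.E = Set.univ) {N : α → Finset I} (hN : Pres M N)
    {J : Type*} [Fintype J] [DecidableEq J] {N' : α → Finset J} (hN' : Pres M.dual N')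
    {K : Finset α} {l : ℕ} (hK : rk M.dual K ≤ l) :
    #(K.image (sat M N)) ≤ 2 ^ l + l := by
  classical
  have hE' : M.dual.E = Set.univ := by rw [Matroid.dual_ground, hE]
  have h1 : #(co M.dual K) ≤ l := by
    have h2 := rk_co hE' (T := co M.dual K) (U := K) (Finset.Subset.refl _)
    omega
  have h2 : #((K \ co M.dual K).biUnion N') ≤ l :=
    (card_nb_cyc hE' hN' K).trans ((rk_mono hE' sdiff_subset).trans hK)
  have h3 : K.image (sat M N) ⊆
      ((K \ co M.dual K).image (sat M N)) ∪ ((co M.dual K).image (sat M N)) := by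
    rw [← image_union]
    apply image_subset_image
    intro x hx
    rw [mem_union, mem_sdiff]
    by_cases h : x ∈ co M.dual K
    · exact Or.inr h
    · exact Or.inl ⟨hx, h⟩
  let φ : Finset J → Finset I := fun S =>
    if h : ∃ k ∈ K \ co M.dual K, N' k = S then sat M N h.choose else ∅
  have h4 : (K \ co M.dual K).image (sat M N) ⊆
      (((K \ co M.dual K).biUnion N').powerset).image φ := by
    intro S hS
    rw [mem_image] at hS
    obtain ⟨k, hk, rfl⟩ := hS
    rw [mem_image]
    refine ⟨N' k, ?_, ?_⟩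
    · rw [mem_powerset]
      exact subset_biUnion_of_mem N' hk
    · have hex : ∃ k₀ ∈ K \ co M.dual K, N' k₀ = N' k := ⟨k, hk, rfl⟩
      have : φ (N' k) = sat M N hex.choose := by
        simp only [φ]
        rw [dif_pos hex]
      rw [this]
      have h5 := hex.choose_spec.2
      have h6 : Clone M hex.choose k := clone_dual (clone_of_pres hN' h5) hE
      exact Finset.Subset.antisymm (sat_clone_subset hE hN h6.symm) (sat_clone_subset hE hN h6)
  have h5 : #((K \ co M.dual K).image (sat M N)) ≤ 2 ^ l := by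
    refine (card_le_card h4).trans (card_image_le.trans ?_)
    rw [card_powerset]
    exact Nat.pow_le_pow_right (by norm_num) h2
  have h6 : #((co M.dual K).image (sat M N)) ≤ l := card_image_le.trans h1
  refine (card_le_card h3).trans ((card_union_le _ _).trans ?_)
  omega

/-- the basic inclusion–exclusion count -/
lemma count_union {K K' U U' : Finset α} (N : α → Finset I)
    {Y Y' : Finset α} (hY : Y ⊆ U) (hY' : Y' ⊆ U') {V : Finset I}
    (hV : (Y ∩ K).biUnion N ⊆ V) (hV' : (Y' ∩ K').biUnion N ⊆ V)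
    {D : Finset I} (hD : D = (U \ K).biUnion N ∩ (U' \ K').biUnion N) :
    #(V ∪ Y.biUnion N ∪ Y'.biUnion N) +
      #((((Y \ K).biUnion N ∩ D) ∩ ((Y' \ K').biUnion N ∩ D)) \ V) =
      #V + #(Y.biUnion N \ V) + #(Y'.biUnion N \ V) := by
  have h1 : V ∪ Y.biUnion N ∪ Y'.biUnion N = V ∪ ((Y.biUnion N \ V) ∪ (Y'.biUnion N \ V)) := by
    ext i
    simp only [mem_union, mem_sdiff]
    tauto
  have h2 : (((Y \ K).biUnion N ∩ D) ∩ ((Y' \ K').biUnion N ∩ D)) \ V =
      (Y.biUnion N \ V) ∩ (Y'.biUnion N \ V) := by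
    ext i
    constructor
    · intro hi
      rw [mem_sdiff, mem_inter, mem_inter, mem_inter] at hi
      obtain ⟨⟨⟨h3, -⟩, ⟨h4, -⟩⟩, h5⟩ := hi
      rw [mem_inter, mem_sdiff, mem_sdiff]
      exact ⟨⟨biUnion_subset_biUnion_of_subset_left _ sdiff_subset h3, h5⟩,
        ⟨biUnion_subset_biUnion_of_subset_left _ sdiff_subset h4, h5⟩⟩
    · intro hi
      rw [mem_inter, mem_sdiff, mem_sdiff] at hi
      obtain ⟨⟨h3, h5⟩, ⟨h4, -⟩⟩ := hi
      have h3' : i ∈ (Y \ K).biUnion N := by
        rw [mem_biUnion] at h3 ⊢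
        obtain ⟨y, hy, hi⟩ := h3
        refine ⟨y, mem_sdiff.2 ⟨hy, fun hyK => h5 (hV ?_)⟩, hi⟩
        exact mem_biUnion.2 ⟨y, mem_inter.2 ⟨hy, hyK⟩, hi⟩
      have h4' : i ∈ (Y' \ K').biUnion N := by
        rw [mem_biUnion] at h4 ⊢
        obtain ⟨y, hy, hi⟩ := h4
        refine ⟨y, mem_sdiff.2 ⟨hy, fun hyK => h5 (hV' ?_)⟩, hi⟩
        exact mem_biUnion.2 ⟨y, mem_inter.2 ⟨hy, hyK⟩, hi⟩
      have hiD : i ∈ D := by
        rw [hD, mem_inter]
        exact ⟨biUnion_subset_biUnion_of_subset_left _ (sdiff_subset_sdiff hY (Finset.Subset.refl _)) h3',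
          biUnion_subset_biUnion_of_subset_left _ (sdiff_subset_sdiff hY' (Finset.Subset.refl _)) h4'⟩
      rw [mem_sdiff, mem_inter, mem_inter, mem_inter]
      exact ⟨⟨⟨h3', hiD⟩, ⟨h4', hiD⟩⟩, h5⟩
  rw [h1, h2, card_union_of_disjoint, add_assoc, card_union_add_card_inter, add_assoc]
  rw [Finset.disjoint_left]
  intro i hi hi2
  rw [mem_union, mem_sdiff, mem_sdiff] at hi2
  rcases hi2 with h | h
  · exact h.2 hi
  · exact h.2 hi

/-- the value that is minimised -/
def aval (N : α → Finset I) (V : Finset I) (Y : Finset α) : ℤ :=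
  (#(Y.biUnion N \ V) : ℤ) - #Y

/-- the constraint on the partial violators -/
def Feas (N : α → Finset I) (K : Finset α) (D : Finset I) (V D₁ : Finset I) (Y : Finset α) :
    Prop :=
  (Y ∩ K).biUnion N ⊆ V ∧ (Y \ K).biUnion N ∩ D = D₁

/-- the signature of a subset -/
noncomputable def sig (N : α → Finset I) (K : Finset α) (D : Finset I)
    (𝒱 : Finset (Finset I)) (l : ℕ) (m : Finset I → Finset I → ℤ) (X : Finset α) :
    Finset (Finset I × Finset I × ℕ) := by
  classical
  exact (𝒱 ×ˢ D.powerset ×ˢ range l).filter (fun p =>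
    ∃ Y ⊆ X, Feas N K D p.1 p.2.1 Y ∧ aval N p.1 Y ≤ m p.1 p.2.1 + p.2.2)

lemma mem_sig {N : α → Finset I} {K : Finset α} {D : Finset I}
    {𝒱 : Finset (Finset I)} {l : ℕ} {m : Finset I → Finset I → ℤ} {X : Finset α}
    {p : Finset I × Finset I × ℕ} : p ∈ sig N K D 𝒱 l m X ↔
      (p.1 ∈ 𝒱 ∧ p.2.1 ⊆ D ∧ p.2.2 < l) ∧
      ∃ Y ⊆ X, Feas N K D p.1 p.2.1 Y ∧ aval N p.1 Y ≤ m p.1 p.2.1 + p.2.2 := by
  unfold sig
  simp only [mem_filter, mem_product, mem_powerset, mem_range]

lemma exists_min (M : Matroid α) (N : α → Finset I) (K U : Finset α) (D : Finset I) :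
    ∃ m : Finset I → Finset I → ℤ, ∀ V D₁,
      (∀ Y ⊆ U, M.Indep (Y : Set α) → Feas N K D V D₁ Y → m V D₁ ≤ aval N V Y) ∧
      (∀ Y ⊆ U, M.Indep (Y : Set α) → Feas N K D V D₁ Y →
        ∃ Y' ⊆ U, M.Indep (Y' : Set α) ∧ Feas N K D V D₁ Y' ∧ aval N V Y' = m V D₁) := by
  classical
  have key : ∀ V D₁, ∃ m : ℤ,
      (∀ Y ⊆ U, M.Indep (Y : Set α) → Feas N K D V D₁ Y → m ≤ aval N V Y) ∧
      (∀ Y ⊆ U, M.Indep (Y : Set α) → Feas N K D V D₁ Y →
        ∃ Y' ⊆ U, M.Indep (Y' : Set α) ∧ Feas N K D V D₁ Y' ∧ aval N V Y' = m) := by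
    intro V D₁
    let F : Finset (Finset α) :=
      U.powerset.filter (fun Y : Finset α => M.Indep (Y : Set α) ∧ Feas N K D V D₁ Y)
    by_cases hF : F.Nonempty
    · obtain ⟨Y₀, hY₀, hmin⟩ := F.exists_min_image (aval N V) hF
      have hY₀' := mem_filter.1 hY₀
      refine ⟨aval N V Y₀, ?_, ?_⟩
      · intro Y hY hI hf
        exact hmin Y (mem_filter.2 ⟨mem_powerset.2 hY, hI, hf⟩)
      · intro Y _ _ _
        exact ⟨Y₀, mem_powerset.1 hY₀'.1, hY₀'.2.1, hY₀'.2.2, rfl⟩
    · have hno : ∀ Y ⊆ U, M.Indep (Y : Set α) → ¬ Feas N K D V D₁ Y := by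
        intro Y hY hI hf
        exact hF ⟨Y, mem_filter.2 ⟨mem_powerset.2 hY, hI, hf⟩⟩
      exact ⟨0, fun Y hY hI hf => absurd hf (hno Y hY hI), fun Y hY hI hf => absurd hf (hno Y hY hI)⟩
  choose m hm using key
  exact ⟨m, hm⟩

/-- submodularity window -/
lemma window {M : Matroid α} (hE : M.E = Set.univ) {U : Finset α} {l : ℕ}
    (hl : rk M U + rk M Uᶜ ≤ rk M univ + l) {X Z : Finset α} (hX : X ⊆ U) (hZ : Z ⊆ Uᶜ)
    (hXi : M.Indep (X : Set α)) (hZi : M.Indep (Z : Set α)) :
    #X + #Z ≤ rk M (X ∪ Z) + l := by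
  have h1 := rk_submod M (X ∪ Z) U
  have h2 := rk_submod M (U ∪ Z) Uᶜ
  have e1 : (X ∪ Z) ∩ U = X := by
    ext x
    simp only [mem_inter, mem_union]
    constructor
    · rintro ⟨h | h, h'⟩
      · exact h
      · exact absurd h' (mem_compl.1 (hZ h))
    · intro h
      exact ⟨Or.inl h, hX h⟩
  have e2 : (X ∪ Z) ∪ U = U ∪ Z := by
    ext x
    simp only [mem_union]
    constructor
    · rintro ((h | h) | h)
      · exact Or.inl (hX h)
      · exact Or.inr h
      · exact Or.inl h
    · rintro (h | h)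
      · exact Or.inr h
      · exact Or.inl (Or.inr h)
  have e3 : (U ∪ Z) ∩ Uᶜ = Z := by
    ext x
    simp only [mem_inter, mem_union, mem_compl]
    constructor
    · rintro ⟨h | h, h'⟩
      · exact absurd h h'
      · exact h
    · intro h
      exact ⟨Or.inr h, mem_compl.1 (hZ h)⟩
  have e4 : (U ∪ Z) ∪ Uᶜ = univ := by
    ext x
    simp only [mem_union, mem_compl, mem_univ, iff_true]
    tauto
  rw [e1, e2] at h1
  rw [e3, e4] at h2
  have h3 := card_le_rk hXi (Finset.Subset.refl X)
  have h4 := card_le_rk hZi (Finset.Subset.refl Z)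
  omega

lemma step {M : Matroid α} (hE : M.E = Set.univ) {N : α → Finset I} (hN : Pres M N)
    {U : Finset α} {l : ℕ} (hl : rk M U + rk M Uᶜ ≤ rk M univ + l)
    {K K' : Finset α} (hK : K ⊆ U) (hK' : K' ⊆ Uᶜ) {D : Finset I}
    (hD : D = (U \ K).biUnion N ∩ (Uᶜ \ K').biUnion N)
    {𝒱 : Finset (Finset I)} (h𝒱 : ∀ T ⊆ K ∪ K', T.biUnion N ∈ 𝒱)
    {m : Finset I → Finset I → ℤ} (hm : ∀ V D₁,
      (∀ Y ⊆ U, M.Indep (Y : Set α) → Feas N K D V D₁ Y → m V D₁ ≤ aval N V Y) ∧
      (∀ Y ⊆ U, M.Indep (Y : Set α) → Feas N K D V D₁ Y →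
        ∃ Y' ⊆ U, M.Indep (Y' : Set α) ∧ Feas N K D V D₁ Y' ∧ aval N V Y' = m V D₁))
    {X X' : Finset α} (hX : X ⊆ U) (hX' : X' ⊆ U) (hXi : M.Indep (X : Set α))
    (hsig : sig N K D 𝒱 l m X ⊆ sig N K D 𝒱 l m X') {Z : Finset α} (hZ : Z ⊆ Uᶜ)
    (hdep : ¬ M.Indep ((X ∪ Z : Finset α) : Set α)) :
    ¬ M.Indep ((X' ∪ Z : Finset α) : Set α) := by
  by_cases hZi : M.Indep (Z : Set α)
  swap
  · intro h
    exact hZi (h.subset (by exact_mod_cast subset_union_right))
  rw [hN] at hdep
  unfold Hall at hdep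
  push Not at hdep
  obtain ⟨Y, hY, hlt⟩ := hdep
  -- split the violator
  set Y₁ := Y ∩ U with hY₁
  set Y₂ := Y ∩ Uᶜ with hY₂
  have hY₁X : Y₁ ⊆ X := by
    intro y hy
    rw [hY₁, mem_inter] at hy
    rcases mem_union.1 (hY hy.1) with h | h
    · exact h
    · exact absurd hy.2 (mem_compl.1 (hZ h))
  have hY₂Z : Y₂ ⊆ Z := by
    intro y hy
    rw [hY₂, mem_inter, mem_compl] at hy
    rcases mem_union.1 (hY hy.1) with h | h
    · exact absurd (hX h) hy.2
    · exact h
  have hYu : Y = Y₁ ∪ Y₂ := by
    ext y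
    rw [hY₁, hY₂, mem_union, mem_inter, mem_inter, mem_compl]
    tauto
  have hY₁U : Y₁ ⊆ U := hY₁X.trans hX
  have hY₂U : Y₂ ⊆ Uᶜ := hY₂Z.trans hZ
  have hdisj : ∀ {A B : Finset α}, A ⊆ U → B ⊆ Uᶜ → #(A ∪ B) = #A + #B := by
    intro A B hA hB
    apply card_union_of_disjoint
    rw [Finset.disjoint_left]
    intro x hx hx2
    exact (mem_compl.1 (hB hx2)) (hA hx)
  have hYcard : #Y = #Y₁ + #Y₂ := by
    rw [hYu]
    exact hdisj hY₁U hY₂U
  set V := (Y ∩ (K ∪ K')).biUnion N with hV
  have hV𝒱 : V ∈ 𝒱 := h𝒱 _ inter_subset_right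
  have hVsub : V ⊆ Y.biUnion N := biUnion_subset_biUnion_of_subset_left _ inter_subset_left
  have hV1 : (Y₁ ∩ K).biUnion N ⊆ V := by
    apply biUnion_subset_biUnion_of_subset_left
    intro y hy
    rw [mem_inter] at hy
    rw [mem_inter, mem_union]
    exact ⟨(mem_inter.1 (hY₁ ▸ hy.1)).1, Or.inl hy.2⟩
  have hV2 : (Y₂ ∩ K').biUnion N ⊆ V := by
    apply biUnion_subset_biUnion_of_subset_left
    intro y hy
    rw [mem_inter] at hy
    rw [mem_inter, mem_union]
    exact ⟨(mem_inter.1 (hY₂ ▸ hy.1)).1, Or.inr hy.2⟩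
  set D₁ := (Y₁ \ K).biUnion N ∩ D with hD₁
  set D₂ := (Y₂ \ K').biUnion N ∩ D with hD₂
  have hF₁ : Feas N K D V D₁ Y₁ := ⟨hV1, rfl⟩
  have hY₁i : M.Indep (Y₁ : Set α) := hXi.subset (by exact_mod_cast hY₁X)
  have hY₂i : M.Indep (Y₂ : Set α) := hZi.subset (by exact_mod_cast hY₂Z)
  have G : ∀ A ⊆ U, Feas N K D V D₁ A →
      (#(V ∪ A.biUnion N ∪ Y₂.biUnion N) : ℤ) + #((D₁ ∩ D₂) \ V) =
        #V + (aval N V A + #A) + #(Y₂.biUnion N \ V) := by
    intro A hA hFA
    have h1 := count_union (K := K) (K' := K') (U := U) (U' := Uᶜ) N hA hY₂U hFA.1 hV2 hD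
    rw [hFA.2, ← hD₂] at h1
    have h2 : ((#(V ∪ A.biUnion N ∪ Y₂.biUnion N) : ℕ) : ℤ) + ((#((D₁ ∩ D₂) \ V) : ℕ) : ℤ) =
        (#V : ℤ) + (#(A.biUnion N \ V) : ℤ) + (#(Y₂.biUnion N \ V) : ℤ) := by
      exact_mod_cast h1
    rw [h2]
    unfold aval
    ring
  -- the violator
  have g1 := G Y₁ hY₁U hF₁
  have e1 : V ∪ Y₁.biUnion N ∪ Y₂.biUnion N = Y.biUnion N := by
    have : Y.biUnion N = Y₁.biUnion N ∪ Y₂.biUnion N := by
      conv_lhs => rw [hYu]
      exact union_biUnion
    rw [union_assoc, ← this]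
    exact union_eq_right.2 hVsub
  rw [e1] at g1
  -- the minimiser
  obtain ⟨Ym, hYm, hYmi, hFm, hmv⟩ := (hm V D₁).2 Y₁ hY₁U hY₁i hF₁
  have hmle := (hm V D₁).1 Y₁ hY₁U hY₁i hF₁
  have g2 := G Ym hYm hFm
  have w := window hE hl hYm hY₂U hYmi hY₂i
  have w2 : rk M (Ym ∪ Y₂) ≤ #(V ∪ Ym.biUnion N ∪ Y₂.biUnion N) := by
    refine (rk_le_nb hE hN _).trans (card_le_card ?_)
    rw [union_biUnion, union_assoc]
    exact subset_union_right
  rw [hmv] at g2
  have hlt' : (#(Y.biUnion N) : ℤ) < #Y₁ + #Y₂ := by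
    rw [hYcard] at hlt
    exact_mod_cast hlt
  have w' : (#Ym : ℤ) + #Y₂ ≤ #(V ∪ Ym.biUnion N ∪ Y₂.biUnion N) + l := by
    have : #Ym + #Y₂ ≤ #(V ∪ Ym.biUnion N ∪ Y₂.biUnion N) + l := by omega
    exact_mod_cast this
  obtain ⟨j, hj⟩ := Int.eq_ofNat_of_zero_le (sub_nonneg.2 hmle)
  have hjl : j < l := by
    have : (j : ℤ) < l := by
      have hj' : aval N V Y₁ = m V D₁ + j := by
        have : aval N V Y₁ - m V D₁ = (j : ℤ) := hj
        linarith
      linarith
    exact_mod_cast this
  have hj' : aval N V Y₁ = m V D₁ + j := by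
    have : aval N V Y₁ - m V D₁ = (j : ℤ) := hj
    linarith
  have hmem : (V, D₁, j) ∈ sig N K D 𝒱 l m X := by
    rw [mem_sig]
    exact ⟨⟨hV𝒱, inter_subset_right, hjl⟩, Y₁, hY₁X, hF₁, hj'.le⟩
  have hmem' := hsig hmem
  rw [mem_sig] at hmem'
  obtain ⟨-, Y', hY'X, hF', hle⟩ := hmem'
  simp only at hF' hle
  have hY'U : Y' ⊆ U := hY'X.trans hX'
  have g3 := G Y' hY'U hF'
  intro hcon
  rw [hN] at hcon
  have h5 := hcon (Y' ∪ Y₂) (union_subset_union hY'X hY₂Z)
  rw [hdisj hY'U hY₂U] at h5
  have h6 : #((Y' ∪ Y₂).biUnion N) ≤ #(V ∪ Y'.biUnion N ∪ Y₂.biUnion N) := by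
    apply card_le_card
    rw [union_biUnion, union_assoc]
    exact subset_union_right
  have h7 : (#Y' : ℤ) + #Y₂ ≤ #(V ∪ Y'.biUnion N ∪ Y₂.biUnion N) := by
    exact_mod_cast h5.trans h6
  linarith

/-- the bound -/
def bound (l : ℕ) : ℕ := 2 ^ (2 ^ (2 * (2 ^ l + l)) * (2 ^ l * l)) + 1

/-- the sets outside `U` compatible with `X` -/
noncomputable def pat (M : Matroid α) (U X : Finset α) : Finset (Finset α) := by
  classical
  exact (Uᶜ.powerset).filter (fun Z => M.Indep ((X ∪ Z : Finset α) : Set α))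

lemma mem_pat {M : Matroid α} {U X Z : Finset α} :
    Z ∈ pat M U X ↔ Z ⊆ Uᶜ ∧ M.Indep ((X ∪ Z : Finset α) : Set α) := by
  unfold pat
  simp only [mem_filter, mem_powerset]

theorem core_bound {M : Matroid α} (hE : M.E = Set.univ) {N₀ : α → Finset I} (hN₀ : Pres M N₀)
    {J : Type*} [Fintype J] [DecidableEq J] {N' : α → Finset J} (hN' : Pres M.dual N')
    {U : Finset α} {l : ℕ} (hl : rk M U + rk M Uᶜ ≤ rk M univ + l) :
    #(U.powerset.image (pat M U)) ≤ bound l := by
  classical
  set N := sat M N₀ with hNdef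
  have hN : Pres M N := pres_sat hE hN₀
  set K := co M U with hKdef
  set K' := co M Uᶜ with hK'def
  have hK : K ⊆ U := co_subset M U
  have hK' : K' ⊆ Uᶜ := co_subset M Uᶜ
  have hl' : rk M Uᶜ + rk M Uᶜᶜ ≤ rk M univ + l := by rw [compl_compl]; omega
  have hKr : rk M.dual K ≤ l := dual_rk_co hE hl
  have hK'r : rk M.dual K' ≤ l := dual_rk_co hE hl'
  have t1 : #(K.image N) ≤ 2 ^ l + l := types_card hE hN₀ hN' hKr
  have t2 : #(K'.image N) ≤ 2 ^ l + l := types_card hE hN₀ hN' hK'r
  set D := (U \ K).biUnion N ∩ (Uᶜ \ K').biUnion N with hD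
  -- the bound on D
  have hDl : #D ≤ l := by
    have h1 := card_nb_cyc hE hN U
    have h2 := card_nb_cyc hE hN Uᶜ
    rw [← hKdef] at h1
    rw [← hK'def] at h2
    have h3 := rk_le_nb hE hN ((U \ K) ∪ (Uᶜ \ K'))
    rw [union_biUnion] at h3
    have h4 := card_union_add_card_inter ((U \ K).biUnion N) ((Uᶜ \ K').biUnion N)
    rw [← hD] at h4
    have h5 : rk M (U \ K) + #K ≤ rk M U := rk_co hE (Finset.Subset.refl _)
    have h6 : rk M (Uᶜ \ K') + #K' ≤ rk M Uᶜ := rk_co hE (Finset.Subset.refl _)
    have h7 : rk M univ ≤ rk M ((U \ K) ∪ (Uᶜ \ K')) + (#K + #K') := by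
      have s1 := rk_submod M ((U \ K) ∪ (Uᶜ \ K')) (K ∪ K')
      have s2 : ((U \ K) ∪ (Uᶜ \ K')) ∪ (K ∪ K') = univ := by
        ext x
        simp only [mem_union, mem_sdiff, mem_compl, mem_univ, iff_true]
        by_cases hx : x ∈ U
        · by_cases hxK : x ∈ K
          · exact Or.inr (Or.inl hxK)
          · exact Or.inl (Or.inl ⟨hx, hxK⟩)
        · by_cases hxK : x ∈ K'
          · exact Or.inr (Or.inr hxK)
          · exact Or.inl (Or.inr ⟨hx, hxK⟩)
      rw [s2] at s1
      have s3 : rk M (K ∪ K') ≤ #(K ∪ K') := by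
        obtain ⟨B, hB, -, hc⟩ := exists_basis M hE (K ∪ K')
        rw [← hc]
        exact card_le_card hB
      have s4 := card_union_le K K'
      omega
    omega
  set 𝒱 := ((K ∪ K').powerset).image (fun T => T.biUnion N) with h𝒱def
  have h𝒱 : ∀ T ⊆ K ∪ K', T.biUnion N ∈ 𝒱 := fun T hT =>
    mem_image.2 ⟨T, mem_powerset.2 hT, rfl⟩
  have h𝒱c : #𝒱 ≤ 2 ^ (2 * (2 ^ l + l)) := by
    have h1 : 𝒱 ⊆ (((K ∪ K').image N).powerset).image (fun S => S.biUnion id) := by
      intro S hS
      obtain ⟨T, hT, rfl⟩ := mem_image.1 hS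
      rw [mem_powerset] at hT
      rw [mem_image]
      refine ⟨T.image N, mem_powerset.2 (image_subset_image hT), ?_⟩
      ext i
      simp only [mem_biUnion, mem_image, id_eq, exists_exists_and_eq_and]
    refine (card_le_card h1).trans (card_image_le.trans ?_)
    rw [card_powerset]
    apply Nat.pow_le_pow_right (by norm_num)
    rw [image_union]
    refine (card_union_le _ _).trans ?_
    omega
  obtain ⟨m, hm⟩ := exists_min M N K U D
  let full : Finset α → Option (Finset (Finset I × Finset I × ℕ)) := fun X =>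
    if M.Indep (X : Set α) then some (sig N K D 𝒱 l m X) else none
  -- patterns factor through `full`
  have hfac : ∀ X ⊆ U, ∀ X' ⊆ U, full X = full X' → pat M U X = pat M U X' := by
    intro X hX X' hX' h
    by_cases hXi : M.Indep (X : Set α)
    · by_cases hXi' : M.Indep (X' : Set α)
      · simp only [full, hXi, hXi', if_true, Option.some.injEq] at h
        ext Z
        rw [mem_pat, mem_pat]
        constructor
        · rintro ⟨hZ, hI⟩
          refine ⟨hZ, ?_⟩
          by_contra hcon
          exact step hE hN hl hK hK' hD h𝒱 hm hX' hX hXi' (by rw [h]) hZ hcon hI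
        · rintro ⟨hZ, hI⟩
          refine ⟨hZ, ?_⟩
          by_contra hcon
          exact step hE hN hl hK hK' hD h𝒱 hm hX hX' hXi (by rw [h]) hZ hcon hI
      · simp [full, hXi, hXi'] at h
    · by_cases hXi' : M.Indep (X' : Set α)
      · simp [full, hXi, hXi'] at h
      · have e : ∀ X : Finset α, ¬ M.Indep (X : Set α) → pat M U X = ∅ := by
          intro X hX
          rw [Finset.eq_empty_iff_forall_notMem]
          intro Z hZ
          rw [mem_pat] at hZ
          exact hX (hZ.2.subset (by exact_mod_cast subset_union_left))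
        rw [e X hXi, e X' hXi']
  have hcard1 : #(U.powerset.image (pat M U)) ≤ #(U.powerset.image full) := by
    let ψ : Option (Finset (Finset I × Finset I × ℕ)) → Finset (Finset α) := fun o =>
      if h : ∃ X ∈ U.powerset, full X = o then pat M U h.choose else ∅
    have : U.powerset.image (pat M U) ⊆ (U.powerset.image full).image ψ := by
      intro S hS
      obtain ⟨X, hX, rfl⟩ := mem_image.1 hS
      rw [mem_image]
      refine ⟨full X, mem_image_of_mem _ hX, ?_⟩
      have hex : ∃ X₀ ∈ U.powerset, full X₀ = full X := ⟨X, hX, rfl⟩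
      have h1 : ψ (full X) = pat M U hex.choose := by
        simp only [ψ]
        rw [dif_pos hex]
      rw [h1]
      exact hfac _ (mem_powerset.1 hex.choose_spec.1) _ (mem_powerset.1 hX) hex.choose_spec.2
    exact (card_le_card this).trans card_image_le
  have hcard2 : U.powerset.image full ⊆
      insert none (((𝒱 ×ˢ D.powerset ×ˢ range l).powerset).image some) := by
    intro o ho
    obtain ⟨X, hX, rfl⟩ := mem_image.1 ho
    rw [mem_insert]
    by_cases hXi : M.Indep (X : Set α)
    · right
      simp only [full, hXi, if_true]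
      rw [mem_image]
      refine ⟨_, ?_, rfl⟩
      rw [mem_powerset]
      unfold sig
      exact filter_subset _ _
    · left
      simp only [full, hXi, if_false]
  refine hcard1.trans ((card_le_card hcard2).trans ((card_insert_le _ _).trans ?_))
  unfold bound
  refine Nat.add_le_add_right (card_image_le.trans ?_) 1
  rw [card_powerset, card_product, card_product, card_powerset, card_range]
  apply Nat.pow_le_pow_right (by norm_num)
  apply Nat.mul_le_mul h𝒱c
  apply Nat.mul_le_mul_right
  exact Nat.pow_le_pow_right (by norm_num) hDl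

end core

section main

lemma eRk_sub {α : Type u} (M : Matroid α) (X : Set M.E) :
    (M.restrictSubtype M.E).eRk X = M.eRk (Subtype.val '' X) := by
  obtain ⟨B, hB⟩ := (M.restrictSubtype M.E).exists_isBasis X (by simp)
  have h2 := Matroid.restrictSubtype_ground_isBasis_iff.1 hB
  rw [← hB.encard_eq_eRk, ← h2.encard_eq_eRk, Subtype.val_injective.encard_image]

lemma pres_of_transversal {α : Type u} {M : Matroid α} (hM : IsTransversal M) (E : Set α)
    [Fintype E] [DecidableEq E] :
    ∃ (k : ℕ) (N : E → Finset (Fin k)), Pres (M.restrictSubtype E) N := by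
  classical
  obtain ⟨k, A, -, hA⟩ := hM
  refine ⟨k, fun e => univ.filter (fun i => (e : α) ∈ A i), ?_⟩
  intro X
  rw [Matroid.restrictSubtype_indep_iff, hA, hall_iff]
  constructor
  · rintro ⟨f, hf, hfA⟩
    refine ⟨fun x => f ⟨(x.1 : α), ⟨x.1, by exact_mod_cast x.2, rfl⟩⟩, ?_, ?_⟩
    · intro x y hxy
      have := congrArg (fun z : (Subtype.val '' (X : Set E) : Set α) => (z : α)) (hf hxy)
      exact Subtype.ext (Subtype.ext this)
    · intro x
      simp only [mem_filter, mem_univ, true_and]
      exact hfA ⟨(x.1 : α), ⟨x.1, by exact_mod_cast x.2, rfl⟩⟩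
  · rintro ⟨g, hg, hgN⟩
    have hmem : ∀ y : (Subtype.val '' (X : Set E) : Set α), ∃ h : (y : α) ∈ E, (⟨y, h⟩ : E) ∈ X := by
      rintro ⟨y, ⟨x, hx, rfl⟩⟩
      exact ⟨x.2, by exact_mod_cast hx⟩
    choose h1 h2 using hmem
    refine ⟨fun y => g ⟨⟨y, h1 y⟩, h2 y⟩, ?_, ?_⟩
    · intro x y hxy
      have := congrArg (fun z : X => ((z : E) : α)) (hg hxy)
      exact Subtype.ext this
    · intro x
      have := hgN ⟨⟨x, h1 x⟩, h2 x⟩
      simp only [mem_filter, mem_univ, true_and] at this
      exact this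

/-- **Main theorem.** The class of matroids that are both transversal and cotransversal is
strongly pigeonhole. -/
theorem result : StronglyPigeonhole.{u} (fun _ M => IsTransversal M ∧ IsCotransversal M) := by
  classical
  intro l _
  refine ⟨bound l, by unfold bound; positivity, ?_⟩
  intro α M hfin hM U hU hconn
  obtain ⟨hT, hT'⟩ := hM
  have : Fintype M.E := hfin.fintype
  obtain ⟨k, N, hN⟩ := pres_of_transversal hT M.E
  obtain ⟨k', N', hN'⟩ := pres_of_transversal hT' M.E
  rw [← Matroid.restrictSubtype_dual] at hN'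
  set M' := M.restrictSubtype M.E with hM'
  have hE : M'.E = Set.univ := Matroid.restrictSubtype_ground
  let fin : Set α → Finset M.E := fun X => univ.filter (fun e : M.E => (e : α) ∈ X)
  have hfinmem : ∀ (X : Set α) (e : M.E), e ∈ fin X ↔ (e : α) ∈ X := by
    intro X e
    simp only [fin, mem_filter, mem_univ, true_and]
  have himg : ∀ X ⊆ M.E, Subtype.val '' ((fin X : Finset M.E) : Set M.E) = X := by
    intro X hX
    ext x
    constructor
    · rintro ⟨e, he, rfl⟩
      exact (hfinmem X e).1 (by exact_mod_cast he)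
    · intro hx
      exact ⟨⟨x, hX hx⟩, by exact_mod_cast (hfinmem X ⟨x, hX hx⟩).2 hx, rfl⟩
  have hcompl : (fin U)ᶜ = fin (M.E \ U) := by
    ext e
    rw [mem_compl, hfinmem, hfinmem]
    simp
  have huniv : (univ : Finset M.E) = fin M.E := by
    ext e
    rw [hfinmem]
    simp
  have hl : rk M' (fin U) + rk M' (fin U)ᶜ ≤ rk M' univ + l := by
    have h1 : ((rk M' (fin U) : ℕ) : ℕ∞) + ((rk M' (fin U)ᶜ : ℕ) : ℕ∞) ≤
        ((rk M' univ : ℕ) : ℕ∞) + l := by
      rw [hcompl, huniv, coe_rk, coe_rk, coe_rk, hM', eRk_sub, eRk_sub, eRk_sub,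
        himg U hU, himg _ Set.sdiff_subset, himg _ (Set.Subset.refl _), M.eRk_ground]
      exact hconn
    exact_mod_cast h1
  have hcore := core_bound hE hN hN' hl
  have hindep : ∀ X ⊆ U, ∀ Z ⊆ M.E \ U,
      (fin Z ∈ pat M' (fin U) (fin X) ↔ M.Indep (X ∪ Z)) := by
    intro X hX Z hZ
    rw [mem_pat]
    have h1 : fin Z ⊆ (fin U)ᶜ := by
      intro e he
      rw [hfinmem] at he
      rw [mem_compl, hfinmem]
      exact (hZ he).2
    have h2 : fin X ∪ fin Z = fin (X ∪ Z) := by
      ext e
      rw [mem_union, hfinmem, hfinmem, hfinmem]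
      rfl
    rw [h2, hM', Matroid.restrictSubtype_indep_iff,
      himg _ (Set.union_subset (hX.trans hU) (hZ.trans Set.sdiff_subset))]
    exact ⟨fun h => h.2, fun h => ⟨h1, h⟩⟩
  let F : Finset (Finset M.E) → Set (Set α) := fun p =>
    {X' | X' ⊆ U ∧ ∀ Z ⊆ M.E \ U, (fin Z ∈ p ↔ M.Indep (X' ∪ Z))}
  have hsub : classes M U ⊆
      F '' (((fin U).powerset.image (pat M' (fin U)) : Finset (Finset (Finset M.E))) :
        Set (Finset (Finset M.E))) := by
    rintro c ⟨X, hX, rfl⟩
    refine ⟨pat M' (fin U) (fin X), ?_, ?_⟩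
    · rw [mem_coe]
      apply mem_image_of_mem
      rw [mem_powerset]
      intro e he
      rw [hfinmem] at he ⊢
      exact hX he
    · ext X'
      simp only [F, Set.mem_ofPred_eq]
      apply and_congr_right
      intro hX'
      unfold Equivalent
      constructor
      · intro h Z hZ
        rw [← hindep X hX Z hZ]
        exact h Z hZ
      · intro h Z hZ
        rw [hindep X hX Z hZ]
        exact h Z hZ
  calc (classes M U).encard ≤ _ := Set.encard_le_encard hsub
    _ ≤ _ := Set.encard_image_le _ _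
    _ = (#((fin U).powerset.image (pat M' (fin U))) : ℕ∞) := Set.encard_coe_eq_coe_finsetCard _
    _ ≤ bound l := by exact_mod_cast hcore

end main

end Pool.Agent.Results.MP_4792b2_co.Pigeonhole
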